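import Pool.Agent.NH73.LD.Disc
import Pool.Agent.R826.FrobH

/-!
# The discriminant of the field generated by the coefficients of a characteristic polynomial
-/

set_option autoImplicit false

namespace Pool.Agent.NH73.LD

open Module NumberField Pool.Agent.H225R3.Marg

lemma exists_roots (p : Polynomial ℂ) (hp : p.Monic) {n : ℕ} (hn : p.natDegree = n) :
    ∃ l : Fin n → ℂ, p = ∏ j, (Polynomial.X - Polynomial.C (l j)) := by
  have h1 : p = (p.roots.map fun a => Polynomial.X - Polynomial.C a).prod :=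
    (IsAlgClosed.splits p).eq_prod_roots_of_monic hp
  have hc : p.roots.toList.length = n := by
    rw [Multiset.length_toList, ← hn]
    exact (Polynomial.splits_iff_card_roots.mp (IsAlgClosed.splits p))
  refine ⟨fun j => p.roots.toList.get (finCongr hc.symm j), ?_⟩
  rw [Equiv.prod_comp (finCongr hc.symm)
    (fun j => Polynomial.X - Polynomial.C (p.roots.toList.get j)), ← List.prod_ofFn]
  have h2 : (List.ofFn fun i => Polynomial.X - Polynomial.C (p.roots.toList.get i)) =
      p.roots.toList.map fun a => Polynomial.X - Polynomial.C a := by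
    refine (List.map_ofFn (f := p.roots.toList.get)
      (g := fun a => Polynomial.X - Polynomial.C a)).symm.trans ?_
    rw [List.ofFn_get]
  rw [h2, ← Multiset.prod_coe, ← Multiset.map_coe, Multiset.coe_toList]
  exact h1

section

variable {k : Type} [Field k] [NumberField k] {n : ℕ}

/-- the field generated by the coefficients of the characteristic polynomial -/
def coeffField (A : Matrix (Fin n) (Fin n) (𝓞 k)) : IntermediateField ℚ k :=
  IntermediateField.adjoin ℚ (Set.range fun i => ((A.charpoly.coeff i : 𝓞 k) : k))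

/-- the subfield `F` has an embedding all of whose extensions to `k` are in `S` -/
def Expanding (S : Finset (k →+* ℂ)) (F : IntermediateField ℚ k) : Prop :=
  ∃ τ : F →+* ℂ, ∀ σ : k →+* ℂ, σ.comp (algebraMap F k) = τ → σ ∈ S

lemma exists_f (A : Matrix (Fin n) (Fin n) (𝓞 k)) :
    ∃ f : Polynomial (𝓞 (coeffField A)),
      f.map (algebraMap (𝓞 (coeffField A)) (𝓞 k)) = A.charpoly := by
  have h1 : A.charpoly ∈ Polynomial.lifts (algebraMap (𝓞 (coeffField A)) (𝓞 k)) := by
    rw [Polynomial.lifts_iff_coeff_lifts]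
    intro i
    have h2 : ((A.charpoly.coeff i : 𝓞 k) : k) ∈ coeffField A :=
      IntermediateField.subset_adjoin ℚ _ ⟨i, rfl⟩
    have h3 : IsIntegral ℤ (⟨((A.charpoly.coeff i : 𝓞 k) : k), h2⟩ : coeffField A) := by
      have h4 : IsIntegral ℤ ((algebraMap (coeffField A) k)
          (⟨((A.charpoly.coeff i : 𝓞 k) : k), h2⟩ : coeffField A)) :=
        RingOfIntegers.isIntegral_coe (A.charpoly.coeff i)
      exact (isIntegral_algebraMap_iff (algebraMap (coeffField A) k).injective).1 h4
    refine ⟨⟨_, h3⟩, ?_⟩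
    apply RingOfIntegers.ext
    rfl
  exact (Polynomial.mem_lifts _).1 h1

lemma emb_comp (F : IntermediateField ℚ k) (σ : k →+* ℂ) :
    emb (σ.comp (algebraMap F k)) = (emb σ).comp (algebraMap (𝓞 F) (𝓞 k)) := by
  ext x
  rfl

lemma map_f (A : Matrix (Fin n) (Fin n) (𝓞 k)) (f : Polynomial (𝓞 (coeffField A)))
    (hf : f.map (algebraMap (𝓞 (coeffField A)) (𝓞 k)) = A.charpoly) (σ : k →+* ℂ) :
    f.map (emb (σ.comp (algebraMap (coeffField A) k))) = ((emb σ).mapMatrix A).charpoly := by
  rw [emb_comp, ← Polynomial.map_map, hf, RingHom.mapMatrix_apply, Matrix.charpoly_map]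

lemma exists_ext (F : IntermediateField ℚ k) (τ : F →+* ℂ) :
    ∃ σ : k →+* ℂ, σ.comp (algebraMap F k) = τ := by
  algebraize [τ]
  exact ⟨(IsAlgClosed.lift (R := F) (S := k) (M := ℂ) : k →ₐ[F] ℂ).toRingHom,
    (IsAlgClosed.lift (R := F) (S := k) (M := ℂ) : k →ₐ[F] ℂ).comp_algebraMap⟩

lemma inj_f (A : Matrix (Fin n) (Fin n) (𝓞 k)) (f : Polynomial (𝓞 (coeffField A)))
    (hf : f.map (algebraMap (𝓞 (coeffField A)) (𝓞 k)) = A.charpoly)
    (τ τ' : coeffField A →+* ℂ) (h : f.map (emb τ) = f.map (emb τ')) : τ = τ' := by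
  have h1 : (RingHom.equivRatAlgHom (coeffField A) ℂ τ) =
      (RingHom.equivRatAlgHom (coeffField A) ℂ τ') := by
    refine IntermediateField.algHom_ext_of_eq_adjoin ℚ
      (s := Set.range fun i => ((A.charpoly.coeff i : 𝓞 k) : k)) (S := coeffField A) rfl ?_
    rintro x ⟨i, rfl⟩
    have h2 := congrArg (fun g => Polynomial.coeff g i) h
    simp only [Polynomial.coeff_map] at h2
    have h3 : ((f.coeff i : 𝓞 (coeffField A)) : coeffField A) =
        ⟨((A.charpoly.coeff i : 𝓞 k) : k), IntermediateField.subset_adjoin ℚ _ ⟨i, rfl⟩⟩ := by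
      have h4 := congrArg (fun g => Polynomial.coeff g i) hf
      simp only [Polynomial.coeff_map] at h4
      apply Subtype.ext
      exact congrArg (fun x : 𝓞 k => (x : k)) h4
    have h5 : τ ((f.coeff i : 𝓞 (coeffField A)) : coeffField A) =
        τ' ((f.coeff i : 𝓞 (coeffField A)) : coeffField A) := h2
    rw [h3] at h5
    exact h5
  exact (RingHom.equivRatAlgHom (coeffField A) ℂ).injective h1

lemma card_ext (F : IntermediateField ℚ k) (τ : F →+* ℂ) (s : Finset (k →+* ℂ))
    (hs : ∀ σ : k →+* ℂ, σ.comp (algebraMap F k) = τ → σ ∈ s) : finrank F k ≤ s.card := by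
  classical
  algebraize [τ]
  rw [← AlgHom.card F k ℂ, ← Finset.card_univ]
  refine Finset.card_le_card_of_injOn (fun φ => φ.toRingHom) ?_ ?_
  · intro φ _
    exact hs _ φ.comp_algebraMap
  · intro φ _ φ' _ h
    exact AlgHom.coe_ringHom_injective h

/-- the number of embeddings all of whose extensions are in `S` -/
lemma card_le (S : Finset (k →+* ℂ)) (F : IntermediateField ℚ k) (T : Finset (F →+* ℂ))
    (hT : ∀ τ ∈ T, ∀ σ : k →+* ℂ, σ.comp (algebraMap F k) = τ → σ ∈ S) :
    T.card ≤ S.card / finrank F k := by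
  classical
  rw [Nat.le_div_iff_mul_le finrank_pos]
  have h1 := Finset.card_eq_sum_card_fiberwise
    (s := S.filter fun σ => σ.comp (algebraMap F k) ∈ T) (t := T)
    (f := fun σ : k →+* ℂ => σ.comp (algebraMap F k)) (fun σ hσ => (Finset.mem_filter.1 hσ).2)
  have h2 : ∀ τ ∈ T, finrank F k ≤ ((S.filter fun σ => σ.comp (algebraMap F k) ∈ T).filter
      fun σ => σ.comp (algebraMap F k) = τ).card := by
    intro τ hτ
    refine card_ext F τ _ fun σ hσ => ?_
    rw [Finset.mem_filter, Finset.mem_filter]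
    exact ⟨⟨hT τ hτ σ hσ, hσ ▸ hτ⟩, hσ⟩
  have h3 := Finset.sum_le_sum h2
  rw [Finset.sum_const, smul_eq_mul, ← h1] at h3
  exact h3.trans (Finset.card_filter_le _ _)

/-- the main inequality -/
theorem gap (S : Finset (k →+* ℂ)) (A : Matrix (Fin n) (Fin n) (𝓞 k)) (hA : IsUnit A)
    (hout : ∀ σ : k →+* ℂ, σ ∉ S → ∀ l : ℂ, ((emb σ).mapMatrix A).charpoly.IsRoot l → ‖l‖ ≤ 1)
    (hnil : ∀ N : ℕ, 0 < N → ¬ IsNilpotent (A ^ N - 1)) :
    Expanding S (coeffField A) ∧ ∃ σ ∈ S, ∃ l : ℂ, ((emb σ).mapMatrix A).charpoly.IsRoot l ∧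
      1 < ‖l‖ ∧ |(discr (coeffField A) : ℝ)| ≤
        ((n.factorial : ℝ) ^ 2 * finrank ℚ (coeffField A)) ^ finrank ℚ (coeffField A) *
          ‖l‖ ^ (2 * n * (S.card / finrank (coeffField A) k) * (finrank ℚ (coeffField A) - 1)) := by
  classical
  obtain ⟨f, hf⟩ := exists_f A
  obtain ⟨σ₀, l₀, hl₀, hl₁⟩ := Pool.Agent.R826.Frob.exists_big S A hA hout hnil
  have hdeg : ∀ σ : k →+* ℂ, (((emb σ).mapMatrix A).charpoly).natDegree = n := fun σ => by
    rw [Matrix.charpoly_natDegree_eq_dim, Fintype.card_fin]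
  -- the largest eigenvalue
  have hfin : ∀ σ : k →+* ℂ, {l : ℂ | ((emb σ).mapMatrix A).charpoly.IsRoot l}.Finite := by
    intro σ
    have h1 : {l : ℂ | ((emb σ).mapMatrix A).charpoly.IsRoot l} =
        (((emb σ).mapMatrix A).charpoly.roots.toFinset : Set ℂ) := by
      ext l
      rw [Set.mem_ofPred_eq, Finset.mem_coe, Multiset.mem_toFinset,
        Polynomial.mem_roots (Matrix.charpoly_monic _).ne_zero]
    rw [h1]
    exact Finset.finite_toSet _
  set E : Set ((k →+* ℂ) × ℂ) := {x | ((emb x.1).mapMatrix A).charpoly.IsRoot x.2} with hE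
  have hEfin : E.Finite := by
    have h1 : E ⊆ ⋃ σ : k →+* ℂ, (fun l => (σ, l)) ''
        {l : ℂ | ((emb σ).mapMatrix A).charpoly.IsRoot l} := by
      rintro ⟨σ, l⟩ h
      exact Set.mem_iUnion.2 ⟨σ, ⟨l, h, rfl⟩⟩
    exact (Set.finite_iUnion fun σ => (hfin σ).image _).subset h1
  obtain ⟨⟨σ₁, l₁⟩, hx, hmax⟩ := Set.exists_max_image E (fun x => ‖x.2‖) hEfin ⟨(σ₀, l₀), hl₀⟩
  have hB1 : 1 < ‖l₁‖ := hl₁.trans_le (hmax (σ₀, l₀) hl₀)
  have hσ₁ : σ₁ ∈ S := by
    by_contra h
    exact absurd (hout σ₁ h l₁ hx) (not_le.2 hB1)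
  -- expanding
  refine ⟨⟨σ₁.comp (algebraMap (coeffField A) k), fun σ hσ => ?_⟩, σ₁, hσ₁, l₁, hx, hB1, ?_⟩
  · by_contra h
    have h1 := map_f A f hf σ
    rw [hσ, map_f A f hf σ₁] at h1
    exact absurd (hout σ h l₁ (h1 ▸ hx)) (not_le.2 hB1)
  · have hroots : ∀ τ : coeffField A →+* ℂ, ∃ l : Fin n → ℂ,
        f.map (emb τ) = ∏ j, (Polynomial.X - Polynomial.C (l j)) := by
      intro τ
      obtain ⟨σ, hσ⟩ := exists_ext (coeffField A) τ
      have h1 := map_f A f hf σ
      rw [hσ] at h1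
      rw [h1]
      exact exists_roots _ (Matrix.charpoly_monic _) (hdeg σ)
    choose l hl using hroots
    set T : Finset (coeffField A →+* ℂ) := Finset.univ.filter fun τ =>
      ∀ σ : k →+* ℂ, σ.comp (algebraMap (coeffField A) k) = τ → σ ∈ S with hT
    set B : (coeffField A →+* ℂ) → ℝ := fun τ => if τ ∈ T then ‖l₁‖ else 1 with hB
    have hroot : ∀ (τ : coeffField A →+* ℂ) (j : Fin n) (σ : k →+* ℂ),
        σ.comp (algebraMap (coeffField A) k) = τ →
        ((emb σ).mapMatrix A).charpoly.IsRoot (l τ j) := by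
      intro τ j σ hσ
      rw [← map_f A f hf σ, hσ, hl, Polynomial.IsRoot, Polynomial.eval_prod]
      exact Finset.prod_eq_zero (Finset.mem_univ j) (by simp)
    have h2 := disc_coeff f l hl (inj_f A f hf) B (fun τ => by
        rw [hB]
        dsimp only
        split_ifs
        · exact hB1.le
        · exact le_rfl)
      (fun τ j => by
        rw [hB]
        dsimp only
        split_ifs with h
        · obtain ⟨σ, hσ⟩ := exists_ext (coeffField A) τ
          exact hmax (σ, l τ j) (hroot τ j σ hσ)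
        · rw [hT, Finset.mem_filter] at h
          push Not at h
          obtain ⟨σ, hσ, h3⟩ := h (Finset.mem_univ τ)
          exact hout σ h3 _ (hroot τ j σ hσ))
    refine h2.trans ?_
    have h3 : ∏ τ : coeffField A →+* ℂ, B τ = ‖l₁‖ ^ T.card := by
      rw [hB, Finset.prod_ite, Finset.prod_const_one, mul_one, Finset.prod_const]
      congr 2
      ext τ
      simp
    have h4 : T.card ≤ S.card / finrank (coeffField A) k :=
      card_le S (coeffField A) T fun τ hτ => (Finset.mem_filter.1 hτ).2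
    rw [h3, ← pow_mul, mul_comm ((finrank ℚ (coeffField A) : ℕ) : ℝ)]
    have h5 : T.card * (2 * (n * (finrank ℚ (coeffField A) - 1))) ≤
        2 * n * (S.card / finrank (coeffField A) k) * (finrank ℚ (coeffField A) - 1) := by
      calc T.card * (2 * (n * (finrank ℚ (coeffField A) - 1)))
          ≤ (S.card / finrank (coeffField A) k) * (2 * (n * (finrank ℚ (coeffField A) - 1))) :=
            Nat.mul_le_mul_right _ h4
        _ = _ := by ring
    exact mul_le_mul_of_nonneg_left (pow_le_pow_right₀ hB1.le h5) (by positivity)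

end

end Pool.Agent.NH73.LD
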