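import Pool.Agent.NH73.LD.Main
import Pool.Agent.R826.FrobO
import Pool.Agent.R826.FrobJ

/-!
# The gap over fields with large discriminants
-/

set_option autoImplicit false

namespace Pool.Agent.NH73.LD

open Module NumberField Pool.Agent.H225R3.Marg

/-- Every subfield `F` of `k` having an embedding all of whose extensions to `k` are in `S` has
degree at most `N` or satisfies `|disc F| ≥ (c D) ^ D`, where `D` is its degree. -/
def LargeDiscriminants (c : ℝ) (N : ℕ) (k : Type) [Field k] [NumberField k]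
    (S : Finset (k →+* ℂ)) : Prop :=
  ∀ F : IntermediateField ℚ k, Expanding S F →
    finrank ℚ F ≤ N ∨ (c * finrank ℚ F) ^ finrank ℚ F ≤ |(discr F : ℝ)|

lemma expanding_le {k : Type} [Field k] [NumberField k] (S : Finset (k →+* ℂ))
    (F : IntermediateField ℚ k) (h : Expanding S F) : finrank F k ≤ S.card := by
  classical
  obtain ⟨τ, hτ⟩ := h
  exact card_ext F τ S hτ

/-- bounded degree -/
theorem bdd (N n : ℕ) : ∃ E : ℕ,
    ∀ (k : Type) [Field k] [NumberField k] (S : Finset (k →+* ℂ))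
      (A : Matrix (Fin n) (Fin n) (𝓞 k)), finrank ℚ k ≤ N → IsUnit A →
      (∀ σ : k →+* ℂ, σ ∉ S → ∀ l : ℂ, ((emb σ).mapMatrix A).charpoly.IsRoot l → ‖l‖ ≤ 1) →
      (∀ N : ℕ, 0 < N → ¬ IsNilpotent (A ^ N - 1)) →
      ∃ σ ∈ S, ∃ l : ℂ, ((emb σ).mapMatrix A).charpoly.IsRoot l ∧ 1 < ‖l‖ ∧ 2 ≤ ‖l‖ ^ E := by
  obtain ⟨E, hE⟩ := Pool.Agent.R826.Frob.high_ram 2 N n (Real.log (2 * N))
  refine ⟨E, ?_⟩
  intro k _ _ S A hd hA hout hnil
  have hdpos : 0 < finrank ℚ k := finrank_pos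
  have hp2 : Fact (Nat.Prime 2) := ⟨Nat.prime_two⟩
  refine hE k S A 2 Nat.prime_two le_rfl ?_ ?_ hA hout hnil
  · refine le_trans ?_ hd
    rw [← Embeddings.card k ℂ]
    exact Finset.card_le_univ S
  · have h1 := Pool.Agent.TH53.HR.resDegSum_le (K := k) 2 (e := 1) (fun P hP => by
      have hPp : P.IsPrime := hP.1
      have h3 : 1 ≤ P.ramificationIdx ℤ := P.ramificationIdx_pos ℤ
      exact_mod_cast h3)
    rw [one_mul] at h1
    have h2 : Real.log (2 * finrank ℚ k) ≤ Real.log (2 * N) := by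
      apply Real.log_le_log
      · positivity
      · have : (finrank ℚ k : ℝ) ≤ N := by exact_mod_cast hd
        linarith
    have h3 : 0 ≤ Real.log (2 * finrank ℚ k) := by
      apply Real.log_nonneg
      have : (1 : ℝ) ≤ finrank ℚ k := by exact_mod_cast hdpos
      linarith
    calc _ ≤ (finrank ℚ k : ℝ) * Real.log (2 * finrank ℚ k) := by gcongr
      _ ≤ finrank ℚ k * Real.log (2 * N) := by gcongr
      _ = _ := mul_comm _ _

/-- the lower bound for one large discriminant -/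
lemma lower {c f L : ℝ} (hf : 1 ≤ f) (hL : 1 ≤ L) (hc : f < c) {D m n : ℕ} (hD : 0 < D)
    (h : (c * D) ^ D ≤ (f * D) ^ D * L ^ (2 * n * m * (D - 1))) :
    c / f ≤ L ^ (2 * n * m) := by
  have hf0 : 0 < f := by linarith
  have hc0 : 0 < c := by linarith
  have hDr : (0 : ℝ) < D := by exact_mod_cast hD
  have h1 : (c / f) ^ D ≤ (L ^ (2 * n * m)) ^ D := by
    rw [← pow_mul]
    have h2 : L ^ (2 * n * m * (D - 1)) ≤ L ^ (2 * n * m * D) :=
      pow_le_pow_right₀ hL (Nat.mul_le_mul_left _ (Nat.sub_le _ _))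
    have h3 : (c * D) ^ D ≤ (f * D) ^ D * L ^ (2 * n * m * D) :=
      h.trans (mul_le_mul_of_nonneg_left h2 (by positivity))
    rw [mul_pow, mul_pow] at h3
    have h4 : c ^ D ≤ f ^ D * L ^ (2 * n * m * D) := by
      have h5 : (0 : ℝ) < (D : ℝ) ^ D := by positivity
      refine le_of_mul_le_mul_right ?_ h5
      calc c ^ D * (D : ℝ) ^ D ≤ f ^ D * (D : ℝ) ^ D * L ^ (2 * n * m * D) := h3
        _ = _ := by ring
    rw [div_pow, div_le_iff₀ (by positivity)]
    calc c ^ D ≤ f ^ D * L ^ (2 * n * m * D) := h4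
      _ = _ := mul_comm _ _
  exact le_of_pow_le_pow_left₀ hD.ne' (by positivity) h1

/-- the gap -/
theorem gapE (c : ℝ) (N s n : ℕ) (hc : (n.factorial : ℝ) ^ 2 < c) : ∃ E : ℕ, 0 < E ∧
    ∀ (k : Type) [Field k] [NumberField k] (S : Finset (k →+* ℂ))
      (A : Matrix (Fin n) (Fin n) (𝓞 k)), S.card ≤ s → LargeDiscriminants c N k S → IsUnit A →
      (∀ σ : k →+* ℂ, σ ∉ S → ∀ l : ℂ, ((emb σ).mapMatrix A).charpoly.IsRoot l → ‖l‖ ≤ 1) →
      (∀ N : ℕ, 0 < N → ¬ IsNilpotent (A ^ N - 1)) →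
      ∃ σ ∈ S, ∃ l : ℂ, ((emb σ).mapMatrix A).charpoly.IsRoot l ∧ 2 ≤ ‖l‖ ^ E := by
  obtain ⟨E₁, hE₁⟩ := bdd (N * s) n
  have hfac : (1 : ℝ) ≤ (n.factorial : ℝ) ^ 2 := by
    have : 1 ≤ n.factorial := Nat.factorial_pos n
    exact one_le_pow₀ (by exact_mod_cast this)
  have hcf : 1 < c / (n.factorial : ℝ) ^ 2 := by
    rw [one_lt_div (by linarith)]
    exact hc
  obtain ⟨j, hj⟩ := pow_unbounded_of_one_lt 2 hcf
  refine ⟨E₁ + 2 * n * s * j + 1, Nat.succ_pos _, ?_⟩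
  intro k _ _ S A hs hk hA hout hnil
  obtain ⟨hexp, σ, hσ, l, hl, hl1, hle⟩ := gap S A hA hout hnil
  have h1 := expanding_le S _ hexp
  rcases hk _ hexp with h2 | h2
  · have h3 : finrank ℚ k ≤ N * s := by
      rw [← finrank_mul_finrank ℚ (coeffField A) k]
      exact Nat.mul_le_mul h2 (h1.trans hs)
    obtain ⟨σ', hσ', l', hl', hl1', h4⟩ := hE₁ k S A h3 hA hout hnil
    exact ⟨σ', hσ', l', hl', h4.trans (pow_le_pow_right₀ hl1'.le (by omega))⟩
  · refine ⟨σ, hσ, l, hl, ?_⟩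
    have h3 := lower hfac hl1.le hc finrank_pos (h2.trans hle)
    have h4 : c / (n.factorial : ℝ) ^ 2 ≤ ‖l‖ ^ (2 * n * s) := by
      refine h3.trans (pow_le_pow_right₀ hl1.le ?_)
      exact Nat.mul_le_mul_left _ ((Nat.div_le_self _ _).trans hs)
    calc (2 : ℝ) ≤ (c / (n.factorial : ℝ) ^ 2) ^ j := hj.le
      _ ≤ (‖l‖ ^ (2 * n * s)) ^ j := pow_le_pow_left₀ (by linarith) h4 j
      _ = ‖l‖ ^ (2 * n * s * j) := by rw [← pow_mul]
      _ ≤ _ := pow_le_pow_right₀ hl1.le (by omega)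

/-- one noncompact embedding -/
lemma large_one (c : ℝ) (N : ℕ) (k : Type) [Field k] [NumberField k] (S : Finset (k →+* ℂ))
    (hS : S.card = 1) (h : finrank ℚ k ≤ N ∨ (c * finrank ℚ k) ^ finrank ℚ k ≤ |(discr k : ℝ)|) :
    LargeDiscriminants c N k S := by
  intro F hF
  have h1 := expanding_le S F hF
  have h2 : finrank F k = 1 := by
    have : 0 < finrank F k := finrank_pos
    omega
  have h3 : F = ⊤ := by
    rw [← IntermediateField.finrank_eq_one_iff_eq_top]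
    exact h2
  subst h3
  have e : (⊤ : IntermediateField ℚ k) ≃ₐ[ℚ] k := IntermediateField.topEquiv
  rw [e.toLinearEquiv.finrank_eq, NumberField.discr_eq_discr_of_algEquiv _ e]
  exact h

end Pool.Agent.NH73.LD
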