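import Pool.Agent.NH73.LD.Span
import Pool.Agent.NH28.DiscB
import Pool.Agent.H940R3.VD.Lin

/-!
# The discriminant of a field spanned by small integers
-/

set_option autoImplicit false

namespace Pool.Agent.NH73.LD

open Module NumberField Pool.Agent.H225R3.Marg

open scoped ComplexOrder in
/-- Hadamard's inequality -/
lemma hadamard_cols {ι : Type*} [Fintype ι] [DecidableEq ι] (M : Matrix ι ι ℂ) :
    ‖M.det‖ ^ 2 ≤ ∏ j, ∑ i, ‖M i j‖ ^ 2 := by
  have h1 := Pool.Agent.H940R3.VD.hadamard (Matrix.posSemidef_conjTranspose_mul_self M)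
  have h2 : (M.conjTranspose * M).det.re = ‖M.det‖ ^ 2 := by
    rw [Matrix.det_mul, Matrix.det_conjTranspose, ← Complex.normSq_eq_norm_sq]
    have h3 : star M.det * M.det = (Complex.normSq M.det : ℂ) := by
      rw [Complex.normSq_eq_conj_mul_self]
      rfl
    rw [h3, Complex.ofReal_re]
  have h3 : ∀ j, ((M.conjTranspose * M) j j).re = ∑ i, ‖M i j‖ ^ 2 := by
    intro j
    rw [Matrix.mul_apply, Complex.re_sum]
    refine Finset.sum_congr rfl fun i _ => ?_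
    rw [Matrix.conjTranspose_apply, ← Complex.normSq_eq_norm_sq]
    have h4 : star (M i j) * M i j = (Complex.normSq (M i j) : ℂ) := by
      rw [Complex.normSq_eq_conj_mul_self]
      rfl
    rw [h4, Complex.ofReal_re]
  rw [h2, Finset.prod_congr rfl fun j _ => h3 j] at h1
  exact h1

variable {F : Type} [Field F] [NumberField F]

/-- a basis of small integers -/
theorem disc_le {κ : Type} [Fintype κ] (b : Basis κ ℚ F) (u : κ → 𝓞 F)
    (hb : ∀ x, b x = (u x : F)) (C : (F →+* ℂ) → ℝ) (hC : ∀ τ x, ‖emb τ (u x)‖ ≤ C τ) :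
    |(discr F : ℝ)| ≤ ∏ τ : F →+* ℂ, (finrank ℚ F * C τ ^ 2) := by
  classical
  have hbi : ∀ x, b x = algebraMap (𝓞 F) F (u x) := hb
  have hcardκ : Fintype.card κ = finrank ℚ F := (finrank_eq_card_basis b).symm
  obtain ⟨D, hD⟩ : ∃ D : ℤ, Algebra.discr ℚ b = D := by
    have h1 : IsIntegral ℤ (Algebra.discr ℚ b) := by
      refine Algebra.discr_isIntegral ℚ fun i => ?_
      rw [hbi]
      exact NumberField.RingOfIntegers.isIntegral_coe _
    obtain ⟨D, hD⟩ := IsIntegrallyClosed.isIntegral_iff.1 h1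
    exact ⟨D, by rw [← hD]; rfl⟩
  obtain ⟨m, hm, hm0, -⟩ := MZ413.exists_index b u hbi D hD
  have hcard : Fintype.card κ = Fintype.card (F →ₐ[ℚ] ℂ) := by
    rw [hcardκ, AlgHom.card ℚ F ℂ]
  set e : κ ≃ (F →ₐ[ℚ] ℂ) := Fintype.equivOfCardEq hcard with he
  have h2 := Algebra.discr_eq_det_embeddingsMatrixReindex_pow_two ℚ ℂ b e
  rw [hD] at h2
  have h3 : ‖(Algebra.embeddingsMatrixReindex ℚ ℂ b e).det‖ ^ 2 ≤
      ∏ τ : F →+* ℂ, (finrank ℚ F * C τ ^ 2) := by
    refine (hadamard_cols _).trans ?_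
    have h4 : ∏ τ : F →+* ℂ, ((finrank ℚ F : ℝ) * C τ ^ 2) =
        ∏ x : κ, ((finrank ℚ F : ℝ) * C (e x).toRingHom ^ 2) := by
      symm
      refine Fintype.prod_equiv (e.trans (RingHom.equivRatAlgHom F ℂ).symm) _ _ fun x => ?_
      rfl
    rw [h4]
    refine Finset.prod_le_prod (fun j _ => Finset.sum_nonneg fun i _ => by positivity)
      fun j _ => ?_
    have h5 : ∀ i ∈ (Finset.univ : Finset κ),
        ‖Algebra.embeddingsMatrixReindex ℚ ℂ b e i j‖ ^ 2 ≤ C (e j).toRingHom ^ 2 := by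
      intro i _
      have h6 : Algebra.embeddingsMatrixReindex ℚ ℂ b e i j = emb (e j).toRingHom (u i) := by
        show (e j) (b i) = _
        rw [hbi]
        rfl
      rw [h6]
      exact pow_le_pow_left₀ (norm_nonneg _) (hC _ _) 2
    refine (Finset.sum_le_sum h5).trans (le_of_eq ?_)
    rw [Finset.sum_const, Finset.card_univ, hcardκ, nsmul_eq_mul]
  have h8 : ‖((algebraMap ℚ ℂ) (D : ℚ))‖ = |(D : ℝ)| := by
    rw [map_intCast, Complex.norm_intCast]
  have h7 : |(D : ℝ)| ≤ ∏ τ : F →+* ℂ, (finrank ℚ F * C τ ^ 2) := by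
    rw [← h8, h2, norm_pow]
    exact h3
  refine le_trans ?_ h7
  rw [← hm]
  push_cast
  rw [abs_mul, abs_pow]
  have : (1 : ℝ) ≤ |(m : ℝ)| := by
    rw [← Int.cast_abs]
    exact_mod_cast Int.one_le_abs hm0
  have h1m : (1 : ℝ) ≤ |(m : ℝ)| ^ 2 := one_le_pow₀ this
  calc |(discr F : ℝ)| = 1 * |(discr F : ℝ)| := (one_mul _).symm
    _ ≤ |(m : ℝ)| ^ 2 * |(discr F : ℝ)| := mul_le_mul_of_nonneg_right h1m (abs_nonneg _)

/-- the discriminant of the field generated by the coefficients -/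
theorem disc_coeff {n : ℕ} (f : Polynomial (𝓞 F)) (l : (F →+* ℂ) → Fin n → ℂ)
    (hl : ∀ τ, f.map (emb τ) = ∏ j, (Polynomial.X - Polynomial.C (l τ j)))
    (hinj : ∀ τ τ' : F →+* ℂ, f.map (emb τ) = f.map (emb τ') → τ = τ')
    (B : (F →+* ℂ) → ℝ) (hB : ∀ τ, 1 ≤ B τ) (hlB : ∀ τ j, ‖l τ j‖ ≤ B τ) :
    |(discr F : ℝ)| ≤ (finrank ℚ F * (n.factorial : ℝ) ^ 2) ^ finrank ℚ F *
      (∏ τ : F →+* ℂ, B τ) ^ (2 * (n * (finrank ℚ F - 1))) := by
  classical
  have h1 : ∀ a : Fin n → ℕ, ∃ w : 𝓞 F, ∀ τ : F →+* ℂ, emb τ w = mval a (l τ) := by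
    intro a
    obtain ⟨w, hw⟩ := exists_w f a
    exact ⟨w, fun τ => hw (emb τ) (l τ) (hl τ)⟩
  choose w hw using h1
  have hpos : 0 < finrank ℚ F := finrank_pos
  obtain ⟨κ, _, b, a, ha, hb⟩ := exists_basis hl hinj (w := w) hw
    (N := finrank ℚ F - 1) (by omega)
  have h2 := disc_le b (fun x => w (a x)) hb
    (fun τ => n.factorial * B τ ^ (n * (finrank ℚ F - 1))) (fun τ x => by
      rw [hw]
      exact norm_mval _ _ (hB τ) (hlB τ) (ha x))
  refine h2.trans (le_of_eq ?_)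
  have h3 : ∀ τ : F →+* ℂ, (finrank ℚ F : ℝ) *
      ((n.factorial : ℝ) * B τ ^ (n * (finrank ℚ F - 1))) ^ 2 =
      (finrank ℚ F * (n.factorial : ℝ) ^ 2) * B τ ^ (2 * (n * (finrank ℚ F - 1))) := by
    intro τ
    rw [mul_pow, ← pow_mul, mul_comm 2 (n * (finrank ℚ F - 1))]
    ring
  rw [Finset.prod_congr rfl fun τ _ => h3 τ, Finset.prod_mul_distrib, Finset.prod_const,
    Finset.card_univ, NumberField.Embeddings.card, Finset.prod_pow]

end Pool.Agent.NH73.LD
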