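import Pool.Agent.NH73.LD.Sym
import Pool.Agent.H225R3.Marg2

/-!
# The symmetrized monomials span the coefficient field
-/

set_option autoImplicit false

namespace Pool.Agent.NH73.LD

open Module NumberField Pool.Agent.H225R3.Marg
open MvPolynomial (eval degreeOf)

variable {n : ℕ}

/-- the separating polynomial -/
noncomputable def sepG {ι : Type*} (s : Finset ι) (t c : ι → ℂ) : MvPolynomial (Fin n) ℂ :=
  ∏ τ ∈ s, (∏ i, (MvPolynomial.C (t τ) - MvPolynomial.X i) - MvPolynomial.C (c τ))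

lemma degreeOf_sepG {ι : Type*} (s : Finset ι) (t c : ι → ℂ) (j : Fin n) :
    degreeOf j (sepG s t c) ≤ s.card := by
  classical
  unfold sepG
  refine (MvPolynomial.degreeOf_prod_le j s _).trans ?_
  have h1 : ∀ τ ∈ s, degreeOf j (∏ i, (MvPolynomial.C (t τ) - MvPolynomial.X i) -
      MvPolynomial.C (c τ) : MvPolynomial (Fin n) ℂ) ≤ 1 := by
    intro τ _
    refine (MvPolynomial.degreeOf_sub_le j _ _).trans (max_le ?_ ?_)
    · refine (MvPolynomial.degreeOf_prod_le j _ _).trans ?_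
      have h2 : ∀ i : Fin n, degreeOf j (MvPolynomial.C (t τ) - MvPolynomial.X i :
          MvPolynomial (Fin n) ℂ) ≤ if j = i then 1 else 0 := by
        intro i
        refine (MvPolynomial.degreeOf_sub_le j _ _).trans (max_le ?_ ?_)
        · rw [MvPolynomial.degreeOf_C]
          exact Nat.zero_le _
        · rw [MvPolynomial.degreeOf_X]
      refine (Finset.sum_le_sum fun i _ => h2 i).trans ?_
      rw [Finset.sum_ite_eq]
      split_ifs <;> simp
    · rw [MvPolynomial.degreeOf_C]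
      exact Nat.zero_le _
  refine (Finset.sum_le_sum h1).trans ?_
  rw [Finset.sum_const, smul_eq_mul, mul_one]

lemma eval_sepG {ι : Type*} (s : Finset ι) (t c : ι → ℂ) (l : Fin n → ℂ)
    (π : Equiv.Perm (Fin n)) :
    eval (fun i => l (π i)) (sepG s t c) =
      ∏ τ ∈ s, ((∏ j, (Polynomial.X - Polynomial.C (l j))).eval (t τ) - c τ) := by
  unfold sepG
  rw [map_prod]
  refine Finset.prod_congr rfl fun τ _ => ?_
  rw [map_sub, map_prod, MvPolynomial.eval_C, Polynomial.eval_prod]
  congr 1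
  rw [← Equiv.prod_comp π fun j => Polynomial.eval (t τ) (Polynomial.X - Polynomial.C (l j))]
  refine Finset.prod_congr rfl fun i _ => ?_
  rw [map_sub, MvPolynomial.eval_C, MvPolynomial.eval_X, Polynomial.eval_sub, Polynomial.eval_X,
    Polynomial.eval_C]

section field

variable {F : Type} [Field F] [NumberField F]

lemma trace_sum (x : F) : ((Algebra.trace ℚ F x : ℚ) : ℂ) = ∑ τ : F →+* ℂ, τ x := by
  have h1 := trace_eq_sum_embeddings (K := ℚ) (L := F) ℂ (x := x)
  rw [eq_ratCast] at h1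
  rw [h1]
  exact Fintype.sum_equiv (RingHom.equivRatAlgHom F ℂ).symm _ _ fun σ => rfl

variable {f : Polynomial (𝓞 F)} {l : (F →+* ℂ) → Fin n → ℂ}
  (hl : ∀ τ, f.map (emb τ) = ∏ j, (Polynomial.X - Polynomial.C (l τ j)))
  (hinj : ∀ τ τ' : F →+* ℂ, f.map (emb τ) = f.map (emb τ') → τ = τ')
  {w : (Fin n → ℕ) → 𝓞 F} (hw : ∀ a τ, emb τ (w a) = mval a (l τ))
include hl hinj hw

lemma orth {N : ℕ} (hN : finrank ℚ F ≤ N + 1) (y : F)
    (hy : ∀ a : Fin n → ℕ, (∀ i, a i ≤ N) → Algebra.trace ℚ F (y * (w a : F)) = 0) : y = 0 := by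
  classical
  obtain ⟨τ₀⟩ : Nonempty (F →+* ℂ) := inferInstance
  have ht : ∀ τ : F →+* ℂ, ∃ t : ℂ, τ ≠ τ₀ →
      (f.map (emb τ₀)).eval t - (f.map (emb τ)).eval t ≠ 0 := by
    intro τ
    by_cases h : τ = τ₀
    · exact ⟨0, fun h' => absurd h h'⟩
    · by_contra hcon
      push Not at hcon
      apply h
      refine (hinj τ₀ τ (Polynomial.funext fun t => ?_)).symm
      exact sub_eq_zero.1 (hcon t).2
  choose t ht using ht
  set s : Finset (F →+* ℂ) := Finset.univ.erase τ₀ with hs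
  set G : MvPolynomial (Fin n) ℂ := sepG s t (fun τ => (f.map (emb τ)).eval (t τ)) with hG
  have hcard : s.card ≤ N := by
    rw [hs, Finset.card_erase_of_mem (Finset.mem_univ _), Finset.card_univ,
      NumberField.Embeddings.card]
    omega
  have h0 : ∑ τ : F →+* ℂ, τ y * ∑ π : Equiv.Perm (Fin n), eval (fun i => l τ (π i)) G = 0 := by
    have e1 : ∀ τ : F →+* ℂ, τ y * ∑ π : Equiv.Perm (Fin n), eval (fun i => l τ (π i)) G =
        ∑ a ∈ G.support, G.coeff a * (τ y * mval (fun i => a i) (l τ)) := by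
      intro τ
      rw [sum_mval, Finset.mul_sum]
      exact Finset.sum_congr rfl fun a _ => by ring
    rw [Finset.sum_congr rfl fun τ _ => e1 τ, Finset.sum_comm]
    refine Finset.sum_eq_zero fun a ha => ?_
    rw [← Finset.mul_sum]
    have e2 := hy (fun i => a i) (fun i => by
      have h1 : a i ≤ degreeOf i G := MvPolynomial.monomial_le_degreeOf i ha
      exact h1.trans ((degreeOf_sepG _ _ _ _).trans hcard))
    have e3 := trace_sum (y * (w (fun i => a i) : F))
    rw [e2, Rat.cast_zero] at e3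
    have e4 : ∀ τ : F →+* ℂ, τ (y * (w (fun i => a i) : F)) =
        τ y * mval (fun i => a i) (l τ) := by
      intro τ
      rw [map_mul, ← hw]
      rfl
    rw [Finset.sum_congr rfl fun τ _ => e4 τ] at e3
    rw [← e3, mul_zero]
  have h1 : ∀ τ : F →+* ℂ, ∀ π : Equiv.Perm (Fin n), eval (fun i => l τ (π i)) G =
      ∏ τ' ∈ s, ((f.map (emb τ)).eval (t τ') - (f.map (emb τ')).eval (t τ')) := by
    intro τ π
    rw [hG, eval_sepG, ← hl]
  rw [Finset.sum_eq_single τ₀] at h0
  · rw [Finset.sum_congr rfl fun π _ => h1 τ₀ π, Finset.sum_const, Finset.card_univ] at h0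
    rcases mul_eq_zero.1 h0 with h2 | h2
    · exact (map_eq_zero τ₀).1 h2
    · exfalso
      rw [smul_eq_zero] at h2
      rcases h2 with h2 | h2
      · exact Fintype.card_ne_zero h2
      · obtain ⟨τ, hτ, h3⟩ := Finset.prod_eq_zero_iff.1 h2
        exact ht τ (Finset.ne_of_mem_erase hτ) h3
  · intro τ _ hτ
    rw [Finset.sum_congr rfl fun π _ => h1 τ π]
    have h2 : ∏ τ' ∈ s, ((f.map (emb τ)).eval (t τ') - (f.map (emb τ')).eval (t τ')) = 0 :=
      Finset.prod_eq_zero (Finset.mem_erase.2 ⟨hτ, Finset.mem_univ τ⟩) (sub_self _)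
    rw [h2, Finset.sum_const_zero, mul_zero]
  · intro h
    exact absurd (Finset.mem_univ _) h

theorem exists_basis {N : ℕ} (hN : finrank ℚ F ≤ N + 1) :
    ∃ (κ : Type) (_ : Fintype κ) (b : Basis κ ℚ F) (a : κ → Fin n → ℕ),
      (∀ x i, a x i ≤ N) ∧ ∀ x, b x = (w (a x) : F) := by
  classical
  set ι := {a : Fin n → ℕ // ∀ i, a i ≤ N} with hι
  set v : ι → F := fun a => (w a.1 : F) with hv
  have hspan : Submodule.span ℚ (Set.range v) = ⊤ := by
    by_contra hne
    obtain ⟨φ, hφ0, hφ⟩ := Submodule.exists_le_ker_of_lt_top _ (lt_top_iff_ne_top.2 hne)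
    have hnd : (Algebra.traceForm ℚ F).Nondegenerate := traceForm_nondegenerate ℚ F
    obtain ⟨y, hy⟩ := (LinearMap.BilinForm.toDual (Algebra.traceForm ℚ F) hnd).surjective φ
    have hy0 : y = 0 := by
      refine orth hl hinj hw hN y fun a ha => ?_
      have h1 : (w a : F) ∈ Submodule.span ℚ (Set.range v) := Submodule.subset_span ⟨⟨a, ha⟩, rfl⟩
      have h2 := LinearMap.mem_ker.1 (hφ h1)
      rw [← hy] at h2
      exact h2
    rw [hy0, map_zero] at hy
    exact hφ0 hy.symm
  obtain ⟨κ, a, hai, ha, hli⟩ := exists_linearIndependent' ℚ v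
  have hfin : Finite κ := hli.finite
  have : Fintype κ := Fintype.ofFinite κ
  refine ⟨κ, inferInstance, Basis.mk hli (by rw [ha, hspan]), fun x => (a x).1,
    fun x => (a x).2, fun x => ?_⟩
  rw [Basis.mk_apply]
  rfl

end field

end Pool.Agent.NH73.LD
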