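import Mathlib

/-!
# Symmetrized monomials
-/

set_option autoImplicit false

namespace Pool.Agent.NH73.LD

open MvPolynomial

variable {n : ℕ}

/-- the symmetrized monomial -/
noncomputable def msym (a : Fin n → ℕ) : MvPolynomial (Fin n) ℤ :=
  ∑ π : Equiv.Perm (Fin n), ∏ i, X (π i) ^ a i

lemma msym_symm (a : Fin n → ℕ) : (msym a).IsSymmetric := by
  intro e
  unfold msym
  rw [map_sum]
  refine Fintype.sum_equiv (Equiv.mulLeft e) _ _ fun π => ?_
  rw [map_prod]
  refine Finset.prod_congr rfl fun i _ => ?_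
  rw [map_pow, rename_X]
  rfl

/-- the values of the symmetrized monomial -/
noncomputable def mval (a : Fin n → ℕ) (l : Fin n → ℂ) : ℂ :=
  ∑ π : Equiv.Perm (Fin n), ∏ i, l (π i) ^ a i

lemma aeval_msym (a : Fin n → ℕ) (l : Fin n → ℂ) : aeval l (msym a) = mval a l := by
  unfold msym mval
  rw [map_sum]
  refine Finset.sum_congr rfl fun π _ => ?_
  rw [map_prod]
  refine Finset.prod_congr rfl fun i _ => ?_
  rw [map_pow, aeval_X]

lemma exists_Q (a : Fin n → ℕ) : ∃ Q : MvPolynomial (Fin n) ℤ,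
    aeval (fun i : Fin n => esymm (Fin n) ℤ (i + 1)) Q = msym a := by
  obtain ⟨Q, hQ⟩ := esymmAlgHom_surjective (σ := Fin n) (R := ℤ) (n := n) (by simp)
    ⟨msym a, msym_symm a⟩
  refine ⟨Q, ?_⟩
  rw [← esymmAlgHom_apply, hQ]

lemma coeff_eq (l : Fin n → ℂ) (i : Fin n) :
    (-1) ^ (i.val + 1) * (∏ j, (Polynomial.X - Polynomial.C (l j))).coeff (n - (i + 1)) =
      (aeval l (esymm (Fin n) ℤ (i + 1)) : ℂ) := by
  have hc : Multiset.card (Finset.univ.val.map l) = n := by simp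
  have h1 : (∏ j, (Polynomial.X - Polynomial.C (l j))) =
      (Multiset.map (fun t => Polynomial.X - Polynomial.C t) (Finset.univ.val.map l)).prod := by
    rw [Multiset.map_map]
    rfl
  have h2 : n - (n - (i.val + 1)) = i.val + 1 := by
    have := i.2
    omega
  rw [h1, Multiset.prod_X_sub_C_coeff _ (by rw [hc]; omega), hc, h2,
    aeval_esymm_eq_multiset_esymm, ← mul_assoc, ← mul_pow]
  norm_num

/-- symmetrized monomials of the roots of a monic polynomial with integral coefficients -/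
theorem exists_w {R : Type*} [CommRing R] (f : Polynomial R) (a : Fin n → ℕ) :
    ∃ w : R, ∀ (τ : R →+* ℂ) (l : Fin n → ℂ),
      f.map τ = ∏ j, (Polynomial.X - Polynomial.C (l j)) → τ w = mval a l := by
  obtain ⟨Q, hQ⟩ := exists_Q a
  refine ⟨aeval (fun i : Fin n => (-1) ^ (i.val + 1) * f.coeff (n - (i + 1))) Q, ?_⟩
  intro τ l hl
  have h1 : τ (aeval (fun i : Fin n => (-1) ^ (i.val + 1) * f.coeff (n - (i + 1))) Q) =
      aeval (fun i : Fin n => τ ((-1) ^ (i.val + 1) * f.coeff (n - (i + 1)))) Q := by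
    have h2 := comp_aeval_apply (R := ℤ)
      (f := fun i : Fin n => (-1) ^ (i.val + 1) * f.coeff (n - (i + 1))) τ.toIntAlgHom Q
    exact h2
  rw [h1]
  have h3 : (fun i : Fin n => τ ((-1) ^ (i.val + 1) * f.coeff (n - (i + 1)))) =
      fun i : Fin n => aeval l (esymm (Fin n) ℤ (i + 1)) := by
    funext i
    rw [← coeff_eq, map_mul, map_pow, map_neg, map_one, ← hl, Polynomial.coeff_map]
  rw [h3, ← aeval_msym, ← hQ]
  have h4 := comp_aeval_apply (R := ℤ) (f := fun i : Fin n => esymm (Fin n) ℤ (i + 1))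
    (aeval l : MvPolynomial (Fin n) ℤ →ₐ[ℤ] ℂ) Q
  exact h4.symm

lemma norm_mval (a : Fin n → ℕ) (l : Fin n → ℂ) {B : ℝ} (hB : 1 ≤ B) (h : ∀ i, ‖l i‖ ≤ B)
    {N : ℕ} (ha : ∀ i, a i ≤ N) : ‖mval a l‖ ≤ n.factorial * B ^ (n * N) := by
  unfold mval
  have h1 : ∀ π ∈ (Finset.univ : Finset (Equiv.Perm (Fin n))),
      ‖∏ i, l (π i) ^ a i‖ ≤ B ^ (n * N) := by
    intro π _
    rw [norm_prod]
    calc ∏ i, ‖l (π i) ^ a i‖ ≤ ∏ _i : Fin n, B ^ N := by
          refine Finset.prod_le_prod (fun i _ => norm_nonneg _) fun i _ => ?_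
          rw [norm_pow]
          exact (pow_le_pow_left₀ (norm_nonneg _) (h _) _).trans (pow_le_pow_right₀ hB (ha i))
      _ = B ^ (n * N) := by
          rw [Finset.prod_const, Finset.card_univ, Fintype.card_fin, ← pow_mul, mul_comm]
  refine (norm_sum_le_of_le _ h1).trans (le_of_eq ?_)
  rw [Finset.sum_const, Finset.card_univ, Fintype.card_perm, Fintype.card_fin, nsmul_eq_mul]

/-- combinations of symmetrized monomials -/
lemma sum_mval (G : MvPolynomial (Fin n) ℂ) (l : Fin n → ℂ) :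
    ∑ π : Equiv.Perm (Fin n), eval (fun i => l (π i)) G =
      ∑ s ∈ G.support, G.coeff s * mval (fun i => s i) l := by
  have h1 : ∀ π : Equiv.Perm (Fin n), eval (fun i => l (π i)) G =
      ∑ s ∈ G.support, G.coeff s * ∏ i, l (π i) ^ s i := fun π => eval_eq' _ G
  rw [Finset.sum_congr rfl fun π _ => h1 π, Finset.sum_comm]
  refine Finset.sum_congr rfl fun s _ => ?_
  rw [← Finset.mul_sum]
  rfl

end Pool.Agent.NH73.LD
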